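import Mathlib
import Pool.Graph.R_pool_sql_team_22c7b01f.H14.GirthA

/-! A square-free word over three letters which begins with `1, 0, 1` and does not contain `1, 0, 1` at any
other place: the letter `1` followed by a final part of the ternary Thue-Morse word. -/

set_option autoImplicit false

namespace Pool.Agent.H53Rank

open List
open Pool.Agent.H14.Girth (tm tm_eq overlap pi pi_of pi_prefix pi_not pi_min pi_long pi_append pi_pi
  pi_len pi_ne comm_eq)

abbrev A := Fin 3

/-- The ternary Thue-Morse word: `0` if the Thue-Morse word is stationary, `1` if it rises, `2` if it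
falls. -/
def v (n : ℕ) : A := if tm n = tm (n + 1) then 0 else if tm (n + 1) then 1 else 2

lemma v_step {n k : ℕ} (h : v n = v k) : tm n = tm k ↔ tm (n + 1) = tm (k + 1) := by
  revert h
  unfold v
  generalize tm n = a
  generalize tm (n + 1) = b
  generalize tm k = c
  generalize tm (k + 1) = d
  revert a b c d
  decide

lemma v_zero {n k : ℕ} (h : v n = v k) (hne : tm n ≠ tm k) : tm (n + 1) = tm n := by
  revert h hne
  unfold v
  generalize tm n = a
  generalize tm (n + 1) = b
  generalize tm k = c
  generalize tm (k + 1) = d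
  revert a b c d
  decide

lemma v_marker (j : ℕ) : ¬ (v j = 1 ∧ v (j + 1) = 0 ∧ v (j + 2) = 1) := by
  unfold v
  rw [show j + 1 + 1 = j + 2 from rfl]
  generalize tm j = a
  generalize tm (j + 1) = b
  generalize tm (j + 2) = c
  generalize tm (j + 2 + 1) = d
  revert a b c d
  decide

lemma v_sq {p : ℕ} (hp : 0 < p) (a : ℕ) : ¬ ∀ i < p, v (a + i) = v (a + p + i) := by
  intro h
  have hs : ∀ i ≤ p, (tm a = tm (a + p) ↔ tm (a + i) = tm (a + p + i)) := by
    intro i
    induction i with
    | zero => exact fun _ => Iff.rfl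
    | succ i ih =>
      intro hi
      exact (ih (by omega)).trans (v_step (h i (by omega)))
  by_cases h0 : tm a = tm (a + p)
  · exact overlap p hp a fun i hi => (hs i hi).1 h0
  · have hc : ∀ i ≤ p, tm (a + i) = tm a := by
      intro i
      induction i with
      | zero => exact fun _ => rfl
      | succ i ih =>
        intro hi
        rw [← ih (by omega)]
        exact v_zero (h i (by omega)) fun h' => h0 ((hs i (by omega)).2 h')
    exact h0 (hc p le_rfl).symm

lemma v9 : v 9 = 0 := by simp [v, tm]
lemma v10 : v 10 = 1 := by simp [v, tm]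
lemma v11 : v 11 = 2 := by simp [v, tm]

def ltr : ℕ → A
  | 0 => 1
  | n + 1 => v (9 + n)

def Wd (m : ℕ) : List A := (range m).map ltr

/-- The beginning of the word, which marks the closed words. -/
def M0 : List A := [1, 0, 1]

lemma get_of {m : ℕ} {a x b : List A} (h : a ++ x ++ b = Wd m) (i : ℕ) (hi : i < x.length) :
    x[i] = ltr (a.length + i) := by
  have h1 : (a ++ x ++ b)[a.length + i]? = some x[i] := by
    rw [append_assoc, getElem?_append_right (by omega), getElem?_append_left (by omega)]
    simp
  rw [h, Wd, getElem?_map] at h1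
  simp only [Option.map_eq_some_iff] at h1
  obtain ⟨k, hk, e⟩ := h1
  rw [getElem?_eq_some_iff] at hk
  obtain ⟨_, hk⟩ := hk
  rw [← e, ← hk, getElem_range]

lemma hsq {m : ℕ} {s : List A} (hs : s ≠ []) : ¬ s ++ s <:+: Wd m := by
  rintro ⟨a, b, h⟩
  have hl := length_pos_iff.2 hs
  have k : ∀ i < s.length, ltr (a.length + i) = ltr (a.length + (s.length + i)) := by
    intro i hi
    rw [← get_of h i (by simp; omega), ← get_of h (s.length + i) (by simp; omega)]
    simp [hi]
  obtain h0 | ⟨c, hc⟩ : a.length = 0 ∨ ∃ c, a.length = c + 1 := by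
    cases a.length <;> simp
  · simp only [h0, Nat.zero_add] at k
    have k0 := k 0 hl
    rcases Nat.lt_or_ge s.length 3 with h3 | h3
    · interval_cases h' : s.length
      · simp [ltr, v9] at k0
      · have k1 := k 1 (by omega)
        simp [ltr, v9, v11] at k1
    · obtain ⟨q, hq⟩ : ∃ q, s.length = q + 1 := ⟨s.length - 1, by omega⟩
      have k1 := k 1 (by omega)
      have k2 := k 2 (by omega)
      rw [hq] at k0 k1 k2
      have k0' : (1 : A) = v (9 + q) := k0
      have k1' : v 9 = v (9 + (q + 1)) := k1
      have k2' : v 10 = v (9 + (q + 2)) := k2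
      rw [v9] at k1'
      rw [v10] at k2'
      exact v_marker (9 + q) ⟨k0'.symm, k1'.symm, k2'.symm⟩
  · refine v_sq hl (9 + c) fun i hi => ?_
    have := k i hi
    rw [hc, add_right_comm, show c + 1 + (s.length + i) = c + (s.length + i) + 1 by ring] at this
    simp only [ltr] at this
    rw [show 9 + c + i = 9 + (c + i) by ring, this]
    congr 1
    ring

lemma hz {m : ℕ} {w x : List A} (hx : M0 <+: x) (hw : w ≠ []) : ¬ w ++ x <:+: Wd m := by
  obtain ⟨y, rfl⟩ := hx
  rintro ⟨a, b, h⟩
  have hl := length_pos_iff.2 hw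
  obtain ⟨q, hq⟩ : ∃ q, a.length + w.length = q + 1 := ⟨a.length + w.length - 1, by omega⟩
  have g : ∀ i (hi : i < 3), ltr (q + 1 + i) = M0[i]'(by simpa [M0] using hi) := by
    intro i hi
    have this : _ = ltr (a.length + (w.length + i)) :=
      get_of h (w.length + i) (by simp [M0]; omega)
    rw [show q + 1 + i = a.length + (w.length + i) by omega, ← this]
    have hi' : i < M0.length := by simpa [M0] using hi
    rw [getElem_append_right (by omega)]
    simp only [add_tsub_cancel_left]
    rw [getElem_append_left hi']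
  have g0 := g 0 (by omega)
  have g1 := g 1 (by omega)
  have g2 := g 2 (by omega)
  simp only [M0, add_zero, getElem_cons_zero, getElem_cons_succ] at g0 g1 g2
  rw [show q + 1 + 1 = (q + 1) + 1 from rfl] at g1
  rw [show q + 1 + 2 = (q + 2) + 1 from rfl] at g2
  simp only [ltr] at g0 g1 g2
  exact v_marker (9 + q) ⟨g0, g1, g2⟩

lemma hp {m : ℕ} {x : List A} (hx : M0 <+: x) (h : x <:+: Wd m) : x <+: Wd m := by
  obtain ⟨a, b, h⟩ := h
  by_cases ha : a = []
  · exact ⟨b, by simpa [ha] using h⟩
  · exact absurd ⟨[], b, by simpa using h⟩ (hz (m := m) hx ha)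

lemma len_W {m : ℕ} : (Wd m).length = m := by simp [Wd]

lemma take3 {m : ℕ} (h : 3 ≤ m) : (Wd m).take 3 = M0 := by
  rw [Wd, ← map_take, take_range, min_eq_left h]
  simp [range_succ, ltr, v9, v10, M0]

lemma take_W {m k : ℕ} (hm : 3 ≤ m) (hk : 3 ≤ k) : M0 <+: (Wd m).take k := by
  rw [← take3 hm]
  have : (Wd m).take 3 = ((Wd m).take k).take 3 := by rw [take_take, min_eq_left hk]
  rw [this]
  exact take_prefix _ _

lemma zero_W {m : ℕ} (h : 3 ≤ m) : [(0 : A)] <:+: Wd m := by
  have h1 : (Wd m).take 3 <:+: Wd m := (take_prefix _ _).isInfix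
  rw [take3 h] at h1
  exact IsInfix.trans ⟨[1], [1], rfl⟩ h1

end Pool.Agent.H53Rank
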