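import Mathlib
import Pool.Agent.H53Rank.A
import Pool.Graph.R_pool_sql_team_22c7b01f.H14.CommDiam

set_option autoImplicit false

namespace Pool.Agent.H53Rank

open List
open Pool.Agent.H14.Girth (pi pi_of pi_prefix pi_not pi_min pi_long pi_append pi_pi
  pi_len pi_ne comm_eq)
open Pool.Agent.H14 (CommDiam.RankLE)

abbrev I := (List A × Fin 4) ⊕ List A

@[ext] structure M : Type where
  l : I → I
  r : List A → List A

instance : Semigroup M where
  mul a b := ⟨a.l ∘ b.l, b.r ∘ a.r⟩
  mul_assoc _ _ _ := rfl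

lemma mul_l (a b : M) (i : I) : (a * b).l i = a.l (b.l i) := rfl
lemma mul_r (a b : M) (i : List A) : (a * b).r i = b.r (a.r i) := rfl

variable (m : ℕ)

/-- The identifications along the cycle. -/
def cc (e : Fin 4) (n : ℕ) : ℕ :=
  if 2 ≤ e.val then n else if e = 1 then 2 * ((n - 1) / 2) + 1 else
    if n = m then 1 else 2 * (n / 2) + 1

/-- The long word. -/
abbrev W : List A := Wd (m + 2)

def rp (x : List A) (e : Fin 4) : List A :=
  if M0 <+: x then (W m).take (cc m e (x.length - 2) + 2) else x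

def vtx (x : List A) (e : Fin 4) : I := .inl (rp m x e, e)

/-- The flip of the colours. -/
def fl (b : Bool) (e : Fin 4) : Fin 4 := if b then ![1, 0, 3, 2] e else e

lemma fl_fl (a b : Bool) (e : Fin 4) : fl a (fl b e) = fl (xor a b) e := by
  revert a b e; decide

/-- The colour given to garbage. -/
def gb (p : List A) : Fin 4 := if p = [0, 0] then 0 else 2

open Classical in
noncomputable def tw (w : List A) : M where
  l i := match i with
    | .inl (x, e) => if w ++ x <:+: W m then vtx m (w ++ x) e else .inr (pi (W m) (w ++ x))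
    | .inr p => .inr (pi (W m) (w ++ p))
  r p := pi (W m).reverse (w.reverse ++ p)

open Classical in
noncomputable def sg (v : List A) : I → Fin 4
  | .inl (x, e) => if v = [] ∨ v ++ x <:+: W m then e else gb (pi (W m) (v ++ x))
  | .inr p => gb (pi (W m) (v ++ p))

noncomputable def J (b : Bool) (u v : List A) : M :=
  ⟨fun i => vtx m u (fl b (sg m v i)), fun _ => v.reverse⟩

def K (i : I) (p : List A) : M := ⟨fun _ => i, fun _ => p⟩

variable {m}

lemma cc_pos (e : Fin 4) {n : ℕ} (hn : 0 < n) : 0 < cc m e n := by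
  unfold cc; split_ifs <;> omega

lemma lenW : (W m).length = m + 2 := len_W

lemma M0_len {x : List A} (h : M0 <+: x) : 3 ≤ x.length := h.length_le

lemma rp_cases {x : List A} (hx : x <:+: W m) (e : Fin 4) :
    (rp m x e = x ∧ ¬ M0 <+: x) ∨ (M0 <+: x ∧ M0 <+: rp m x e ∧
      x = (W m).take x.length ∧ rp m x e = (W m).take (cc m e (x.length - 2) + 2) ∧
      x.length ≤ m + 2) := by
  by_cases h : M0 <+: x
  · have hl := hx.length_le
    rw [lenW] at hl
    have h3 := M0_len h
    have hc := cc_pos (m := m) e (n := x.length - 2) (by omega)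
    exact Or.inr ⟨h, by rw [rp, if_pos h]; exact take_W (by omega) (by omega),
      prefix_iff_eq_take.1 (hp h hx), if_pos h, hl⟩
  · exact Or.inl ⟨if_neg h, h⟩

lemma rp_hi {x : List A} (hx : x <:+: W m) {e : Fin 4} (he : 2 ≤ e.val) : rp m x e = x := by
  rcases rp_cases hx e with h | ⟨h, -, h1, h2, -⟩
  · exact h.1
  · have h3 := M0_len h
    rw [h2, cc, if_pos he, Nat.sub_add_cancel (by omega), ← h1]

lemma rp_inf {x : List A} (hx : x <:+: W m) (e : Fin 4) : rp m x e <:+: W m := by
  rcases rp_cases hx e with h | ⟨-, -, h1, h2, -⟩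
  · rwa [h.1]
  · rw [h2]; exact (take_prefix _ _).isInfix

lemma pi_closed {w x : List A} (hw : w ≠ []) (hx : M0 <+: x) :
    pi (W m) (w ++ x) = pi (W m) (w ++ M0) := by
  obtain ⟨y, rfl⟩ := hx
  rw [← append_assoc, pi_append (hz (prefix_rfl) hw)]

lemma key {w x : List A} (hw : w ≠ []) (hx : x <:+: W m) (e : Fin 4) :
    rp m x e = x ∨ (¬ w ++ x <:+: W m ∧ ¬ w ++ rp m x e <:+: W m ∧
      pi (W m) (w ++ rp m x e) = pi (W m) (w ++ x)) := by
  rcases rp_cases hx e with h | ⟨h, h', -⟩
  · exact Or.inl h.1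
  · refine Or.inr ⟨hz h hw, hz h' hw, ?_⟩
    rw [pi_closed hw h, pi_closed hw h']

lemma tw_vtx {w x : List A} (hw : w ≠ []) (hx : x <:+: W m) (e : Fin 4) :
    (tw m w).l (vtx m x e) = (tw m w).l (.inl (x, e)) := by
  rcases key hw hx e with h | ⟨h1, h2, h3⟩
  · rw [vtx, h]
  · simp only [vtx, tw, if_neg h1, if_neg h2, h3]

lemma sg_vtx (v : List A) {x : List A} (hx : x <:+: W m) (e : Fin 4) :
    sg m v (vtx m x e) = sg m v (.inl (x, e)) := by
  by_cases hv : v = []
  · simp [vtx, sg, hv]
  rcases key hv hx e with h | ⟨h1, h2, h3⟩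
  · rw [vtx, h]
  · simp [vtx, sg, hv, h1, h2, h3]

lemma suf {w x : List A} (h : w ++ x <:+: W m) : x <:+: W m := (suffix_append _ _).isInfix.trans h
lemma pre {w x : List A} (h : w ++ x <:+: W m) : w <:+: W m := (prefix_append _ _).isInfix.trans h

lemma tw_mul {w : List A} (hw : w ≠ []) (v : List A) : tw m w * tw m v = tw m (w ++ v) := by
  ext1
  · funext i
    rw [mul_l]
    rcases i with ⟨x, e⟩ | p
    · by_cases h : v ++ x <:+: W m
      · have : (tw m v).l (.inl (x, e)) = vtx m (v ++ x) e := if_pos h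
        rw [this, tw_vtx hw h]
        simp only [tw, append_assoc]
      · have : (tw m v).l (.inl (x, e)) = .inr (pi (W m) (v ++ x)) := if_neg h
        rw [this]
        simp only [tw, append_assoc, pi_pi, if_neg (mt suf h)]
    · simp only [tw, append_assoc, pi_pi]
  · funext p
    simp only [mul_r, tw, pi_pi, reverse_append, append_assoc]

lemma tw_K {w : List A} (h : ¬ w <:+: W m) :
    tw m w = K (.inr (pi (W m) w)) (pi (W m).reverse w.reverse) := by
  ext1
  · funext i
    rcases i with ⟨x, e⟩ | p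
    · simp only [tw, K, if_neg (mt pre h), pi_append h]
    · simp only [tw, K, pi_append h]
  · funext p
    simp only [tw, K, pi_append (mt reverse_infix.1 h)]

/-- The three normal forms. -/
def Ty (m : ℕ) (s : M) : Prop := (∃ w, w ≠ [] ∧ w <:+: W m ∧ s = tw m w) ∨
  (∃ b u v, u <:+: W m ∧ v <:+: W m ∧ s = J m b u v) ∨ ∃ i p, s = K i p

lemma ty_mul {a b : M} (ha : Ty m a) (hb : Ty m b) : Ty m (a * b) := by
  rcases hb with ⟨w', h0', h', rfl⟩ | ⟨b', u', v', hu', hv', rfl⟩ | ⟨i, p, rfl⟩
  · rcases ha with ⟨w, h0, h, rfl⟩ | ⟨b, u, v, hu, hv, rfl⟩ | ⟨i, p, rfl⟩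
    · rw [tw_mul h0]
      by_cases hw : w ++ w' <:+: W m
      · exact Or.inl ⟨_, by simp [h0], hw, rfl⟩
      · exact Or.inr (Or.inr ⟨_, _, tw_K hw⟩)
    · have hs : ∀ i, sg m v ((tw m w').l i) = sg m (v ++ w') i := by
        rintro (⟨x, e⟩ | p)
        · by_cases h : w' ++ x <:+: W m
          · have : (tw m w').l (.inl (x, e)) = vtx m (w' ++ x) e := if_pos h
            rw [this, sg_vtx _ h]
            by_cases hv : v = [] <;> simp [sg, hv, h, h0']
          · have : (tw m w').l (.inl (x, e)) = .inr (pi (W m) (w' ++ x)) := if_neg h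
            rw [this]
            simp [sg, h0', mt suf h, pi_pi]
        · simp only [tw, sg, pi_pi, append_assoc]
      by_cases hw : v ++ w' <:+: W m
      · refine Or.inr (Or.inl ⟨b, u, _, hu, hw, M.ext (funext fun i =>
          congrArg (fun e => vtx m u (fl b e)) (hs i)) (funext fun p => ?_)⟩)
        simp only [mul_r, J, tw, ← reverse_append]
        exact pi_of (reverse_infix.2 hw)
      · refine Or.inr (Or.inr ⟨vtx m u (fl b (gb (pi (W m) (v ++ w')))),
          (tw m w').r v.reverse, M.ext (funext fun i => ?_) rfl⟩)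
        simp only [mul_l, J, hs, K]
        rcases i with ⟨x, e⟩ | p
        · have : ¬ v ++ (w' ++ x) <:+: W m := by rw [← append_assoc]; exact mt pre hw
          have h2 : pi (W m) (v ++ (w' ++ x)) = pi (W m) (v ++ w') := by
            rw [← append_assoc, pi_append hw]
          simp [sg, h0', this, h2]
        · simp only [sg, pi_append hw]
    · exact Or.inr (Or.inr ⟨i, (tw m w').r p, rfl⟩)
  · rcases ha with ⟨w, h0, h, rfl⟩ | ⟨b, u, v, hu, hv, rfl⟩ | ⟨i, p, rfl⟩
    · by_cases hw : w ++ u' <:+: W m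
      · refine Or.inr (Or.inl ⟨b', _, v', hw, hv', M.ext (funext fun i => ?_) rfl⟩)
        simp only [mul_l, J, tw_vtx h0 hu']
        exact if_pos hw
      · refine Or.inr (Or.inr ⟨.inr (pi (W m) (w ++ u')), _, M.ext (funext fun i => ?_) rfl⟩)
        simp only [mul_l, J, tw_vtx h0 hu']
        exact if_neg hw
    · by_cases hw : v = [] ∨ v ++ u' <:+: W m
      · refine Or.inr (Or.inl ⟨xor b b', u, v', hu, hv', M.ext (funext fun i => ?_) rfl⟩)
        simp only [mul_l, J, sg_vtx _ hu', ← fl_fl]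
        exact congrArg (fun e => vtx m u (fl b e)) (if_pos hw)
      · refine Or.inr (Or.inr ⟨vtx m u (fl b (gb (pi (W m) (v ++ u')))), _,
          M.ext (funext fun i => ?_) rfl⟩)
        simp only [mul_l, J, sg_vtx _ hu']
        exact congrArg (fun e => vtx m u (fl b e)) (if_neg hw)
    · exact Or.inr (Or.inr ⟨_, _, rfl⟩)
  · exact Or.inr (Or.inr ⟨a.l i, p, rfl⟩)

variable (m) in
noncomputable def gens : Finset M := by
  classical exact (Finset.univ.image fun a : A => tw m [a]) ∪ {J m true [] []}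

variable (m) in
def S : Subsemigroup M := Subsemigroup.closure (gens m : Set M)

def wd : I → List A
  | .inl (x, _) => x
  | .inr p => p

lemma ty_S {s : M} (hs : s ∈ S m) : Ty m s ∧ (∀ i, (wd (s.l i)).length ≤ m + 3) ∧
    ∀ p, (s.r p).length ≤ m + 3 := by
  induction hs using Subsemigroup.closure_induction with
  | mul a b _ _ ha hb => exact ⟨ty_mul ha.1 hb.1, fun i => ha.2.1 _, fun p => hb.2.2 _⟩
  | mem s hs =>
    simp only [gens, Finset.coe_union, Finset.coe_image, Finset.coe_univ, Set.image_univ,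
      Finset.coe_singleton, Set.mem_union, Set.mem_range,
      Set.mem_singleton_iff] at hs
    rcases hs with ⟨a, rfl⟩ | rfl
    · refine ⟨?_, ?_, fun p => pi_len.trans (by simp [lenW])⟩
      · by_cases h : [a] <:+: W m
        · exact Or.inl ⟨_, by simp, h, rfl⟩
        · exact Or.inr (Or.inr ⟨_, _, tw_K h⟩)
      · rintro (⟨x, e⟩ | p)
        · simp only [tw]
          split_ifs with h
          · exact (rp_inf h e).length_le.trans (by simp [lenW])
          · exact pi_len.trans (by simp [lenW])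
        · exact pi_len.trans (by simp [lenW])
    · exact ⟨Or.inr (Or.inl ⟨_, _, _, nil_infix, nil_infix, rfl⟩), by simp [J, vtx, rp, wd, M0],
        by simp [J]⟩

instance : Finite (S m) := by
  have hL : {l : List A | l.length ≤ m + 3}.Finite := finite_length_le _ _
  have hI : {i : I | (wd i).length ≤ m + 3}.Finite := by
    refine (((hL.prod Set.finite_univ).image Sum.inl).union (hL.image Sum.inr)).subset ?_
    rintro (⟨x, e⟩ | p) h
    exacts [Or.inl ⟨(x, e), ⟨h, trivial⟩, rfl⟩, Or.inr ⟨_, h, rfl⟩]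
  have hi : ∀ {x : List A}, x <:+: W m → x.length ≤ m + 3 := fun h =>
    h.length_le.trans (by simp [lenW])
  refine ((hL.image (tw m)).union ((((Set.finite_univ (α := Bool)).prod (hL.prod hL)).image
    fun q => J m q.1 q.2.1 q.2.2).union
    ((hI.prod hL).image fun q => K q.1 q.2))).subset fun s hs => ?_
  obtain ⟨⟨w, -, h, rfl⟩ | ⟨b, u, v, hu, hv, rfl⟩ | ⟨i, p, rfl⟩, h1, h2⟩ := ty_S hs
  exacts [Or.inl ⟨w, hi h, rfl⟩, Or.inr (Or.inl ⟨(b, u, v), ⟨trivial, hi hu, hi hv⟩, rfl⟩),
    Or.inr (Or.inr ⟨(i, p), ⟨h1 i, h2 p⟩, rfl⟩)]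

lemma rank : CommDiam.RankLE (S m) 4 := by
  classical
  refine ⟨(gens m).preimage Subtype.val Subtype.val_injective.injOn, ?_, ?_⟩
  · refine (Finset.card_le_card_of_injOn Subtype.val (fun x hx => Finset.mem_preimage.1 hx)
      Subtype.val_injective.injOn).trans ((Finset.card_union_le _ _).trans ?_)
    exact add_le_add (Finset.card_image_le.trans (by simp)) (Finset.card_singleton _).le
  · rw [Finset.coe_preimage]
    exact Subsemigroup.closure_closure_coe_preimage

lemma tw_mem {w : List A} (hw : w ≠ []) : tw m w ∈ S m := by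
  induction w with
  | nil => exact absurd rfl hw
  | cons a w ih =>
    have h : tw m [a] ∈ S m := Subsemigroup.subset_closure (by simp [gens])
    by_cases h0 : w = []
    · rwa [h0]
    · have := (S m).mul_mem h (ih h0)
      rwa [tw_mul (by simp)] at this

lemma J1_mem : J m true [] [] ∈ S m := Subsemigroup.subset_closure (by simp [gens])

lemma sg_nil_vtx (e : Fin 4) : sg m [] (vtx m [] e) = e := by
  rw [sg_vtx _ nil_infix]; simp [sg]

lemma J0_mem : J m false [] [] ∈ S m := by
  have := (S m).mul_mem (J1_mem (m := m)) J1_mem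
  have e : J m true [] [] * J m true [] [] = J m false [] [] := M.ext (funext fun i => by
    simp only [mul_l, J, sg_nil_vtx, fl_fl]; rfl) rfl
  rwa [e] at this

lemma J_mem {w : List A} (hw : w ≠ []) (h : w <:+: W m) : J m false w [] ∈ S m := by
  have := (S m).mul_mem (tw_mem hw) (J0_mem (m := m))
  have e : tw m w * J m false [] [] = J m false w [] := M.ext (funext fun i => by
    simp only [mul_l, J, tw_vtx hw nil_infix]
    simp [tw, h]) rfl
  rwa [e] at this

lemma pi00 (hm : 1 ≤ m) : pi (W m) [0, 0] = [0, 0] := by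
  have h1 : ¬ [(0 : A), 0] <:+: W m := hsq (s := [0]) (by simp)
  have h2 := pi_long (W := W m) h1 (y := [0]) ⟨[0], rfl⟩ (zero_W (by omega))
  have h3 : pi (W m) [0, 0] <+: [0, 0] := pi_prefix
  exact h3.eq_of_length (le_antisymm h3.length_le h2)

lemma K0_mem (hm : 1 ≤ m) : K (vtx m [] 0) [] ∈ S m := by
  have h1 : tw m [0, 0] ∈ S m := tw_mem (by simp)
  have := (S m).mul_mem ((S m).mul_mem (J0_mem (m := m)) h1) J0_mem
  have e : J m false [] [] * tw m [0, 0] * J m false [] [] = K (vtx m [] 0) [] := by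
    have h2 : ¬ [(0 : A), 0] <:+: W m := hsq (s := [0]) (by simp)
    rw [tw_K h2]
    refine M.ext (funext fun i => ?_) rfl
    simp only [mul_l, J, K, sg, nil_append]
    rw [pi00 hm, pi00 hm]
    rfl
  rwa [e] at this

lemma K1_mem (hm : 1 ≤ m) : K (vtx m [] 1) [] ∈ S m := by
  have := (S m).mul_mem (J1_mem (m := m)) (K0_mem hm)
  have e : J m true [] [] * K (vtx m [] 0) [] = K (vtx m [] 1) [] := by
    refine M.ext (funext fun i => ?_) rfl
    simp only [mul_l, J, K, sg_nil_vtx]
    rfl
  rwa [e] at this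

lemma K_mem (hm : 1 ≤ m) {w : List A} (hw : w ≠ []) (h : w <:+: W m) {e : Fin 4}
    (he : e.val < 2) : K (vtx m w e) [] ∈ S m := by
  have h0 : K (vtx m [] e) [] ∈ S m := by
    have : e = 0 ∨ e = 1 := by omega
    rcases this with rfl | rfl
    exacts [K0_mem hm, K1_mem hm]
  have := (S m).mul_mem (tw_mem hw) h0
  have e : tw m w * K (vtx m [] e) [] = K (vtx m w e) [] := M.ext (funext fun i => by
    simp only [mul_l, K, tw_vtx hw nil_infix]
    simp [tw, h]) rfl
  rwa [e] at this

end Pool.Agent.H53Rank
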