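import Mathlib
import Pool.Agent.H53Rank.B

set_option autoImplicit false

namespace Pool.Agent.H53Rank

open List hiding pi
open Pool.Agent.H14.Girth (pi pi_of pi_prefix pi_not pi_min pi_long pi_append pi_pi
  pi_len pi_ne comm_eq)
open Pool.Agent.H14.CommDiam (commGraph)

variable {m : ℕ}

lemma cK (a : M) (i : I) (p : List A) : a * K i p = K i p * a ↔ a.l i = i ∧ a.r p = p :=
  ⟨fun h => ⟨congrFun (congrArg M.l h) i, (congrFun (congrArg M.r h) p).symm⟩,
    fun h => M.ext (funext fun _ => h.1) (funext fun _ => h.2.symm)⟩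

lemma cTJ {w u v : List A} {b : Bool} (hw : w ≠ []) (hv : v <:+: W m) :
    tw m w * J m b u v ≠ J m b u v * tw m w := fun h =>
  pi_ne (by simpa using hw) (reverse_infix.2 hv) (congrFun (congrArg M.r h) []).symm

lemma nbT {w : List A} (hw : w ≠ []) (h : w <:+: W m) {b : M} (hb : Ty m b)
    (hc : tw m w * b = b * tw m w) : b = tw m w ∨ b = tw m (w ++ w) := by
  rcases hb with ⟨w', h0', h', rfl⟩ | ⟨b', u', v', hu', hv', rfl⟩ | ⟨i, p, rfl⟩
  · rw [tw_mul hw, tw_mul h0'] at hc
    have h1 := congrFun (congrArg M.l hc) (.inr [])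
    have h2 := congrFun (congrArg M.r hc) []
    simp only [tw, append_nil, Sum.inr.injEq] at h1 h2
    exact Or.inl (by rw [comm_eq (fun _ => hsq) h h' hw h0' h1 h2])
  · exact absurd hc (cTJ hw hv')
  · obtain ⟨h1, h2⟩ := (cK _ _ _).1 hc
    have h3 : (tw m w * tw m w).l i = i := by rw [mul_l, h1, h1]
    have h4 : (tw m w * tw m w).r p = p := by rw [mul_r, h2, h2]
    rw [tw_mul hw, tw_K (hsq hw)] at h3 h4
    right
    rw [tw_K (hsq hw), ← h3, ← h4]
    rfl

lemma fl_hi (b : Bool) (e : Fin 4) : 2 ≤ (fl b e).val ↔ 2 ≤ e.val := by revert b e; decide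

lemma fl_inj (b b' : Bool) (e : Fin 4) (h : fl b e = fl b' e) : b = b' := by
  revert b b' e; decide

lemma fl_false (e : Fin 4) : fl false e = e := by revert e; decide

lemma gb_cases (p : List A) : gb p = 0 ∨ gb p = 2 := by unfold gb; split_ifs <;> simp

lemma vtx_inj {u u' : List A} {e e' : Fin 4} (h : vtx m u e = vtx m u' e') :
    e = e' ∧ rp m u e = rp m u' e := by
  simp only [vtx, Sum.inl.injEq, Prod.mk.injEq] at h
  obtain ⟨h1, rfl⟩ := h
  exact ⟨rfl, h1⟩

lemma eq_hi {u u' : List A} (hu : u <:+: W m) (hu' : u' <:+: W m) {e e' : Fin 4}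
    (he : 2 ≤ e.val) (h : vtx m u e = vtx m u' e') : u = u' := by
  obtain ⟨-, h2⟩ := vtx_inj h
  rwa [rp_hi hu he, rp_hi hu' he] at h2

lemma sg_ok {v u : List A} (h : v = [] ∨ v ++ u <:+: W m) (e : Fin 4) :
    sg m v (.inl (u, e)) = e := if_pos h

lemma sg_no {v u : List A} (h : ¬ (v = [] ∨ v ++ u <:+: W m)) (e : Fin 4) :
    sg m v (.inl (u, e)) = gb (pi (W m) (v ++ u)) := if_neg h

lemma last_ne {l : List A} : l ++ [1] ≠ [0, 0] := fun h => by
  have := congrArg getLast? h
  simp at this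

lemma sg1 {v : List A} (hv : v <:+: W m) : sg m v (.inr [1]) = 2 := by
  have h : pi (W m) (v ++ [1]) = v ++ [1] := by
    by_cases h : v ++ [1] <:+: W m
    · exact pi_of h
    · have h2 := pi_long h (prefix_append v [1]) hv
      have h3 : pi (W m) (v ++ [1]) <+: v ++ [1] := pi_prefix
      exact h3.eq_of_length (le_antisymm h3.length_le (by simp; omega))
  change gb (pi (W m) (v ++ [1])) = 2
  rw [h, gb, if_neg last_ne]

lemma not_closed {v u : List A} (hv0 : v ≠ []) (hv : v <:+: W m)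
    (h : gb (pi (W m) (v ++ u)) = 0) : ¬ M0 <+: u := by
  intro hc
  rw [pi_closed hv0 hc] at h
  have h1 : pi (W m) (v ++ M0) = [0, 0] := by
    by_contra h'
    rw [gb, if_neg h'] at h
    exact absurd h (by decide)
  have h2 := pi_long (hz (prefix_rfl (l := M0)) hv0) (prefix_append v M0) hv
  rw [h1] at h2
  obtain ⟨a, rfl⟩ : ∃ a, v = [a] := by
    rcases v with _ | ⟨a, _ | ⟨b, v⟩⟩
    · exact absurd rfl hv0
    · exact ⟨a, rfl⟩
    · simp at h2
  have h3 : pi (W m) ([a] ++ M0) <+: [a] ++ M0 := pi_prefix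
  rw [h1] at h3
  obtain ⟨t, ht⟩ := h3
  simp [M0] at ht

lemma nbJ {b : Bool} {u v : List A} (hu : u <:+: W m) (hv : v <:+: W m) {x : M} (hx : Ty m x)
    (hc : J m b u v * x = x * J m b u v) :
    x = J m b u v ∨ ((v = [] ∨ v ++ u <:+: W m) ∧ x = J m (!b) u v) ∨
      ∃ e, x = K (vtx m u e) v.reverse ∧ fl b (sg m v (vtx m u e)) = e := by
  rcases hx with ⟨w', h0', h', rfl⟩ | ⟨b', u', v', hu', hv', rfl⟩ | ⟨i, p, rfl⟩
  · exact absurd hc.symm (cTJ h0' hv)
  · have h2 := congrFun (congrArg M.r hc) []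
    simp only [mul_r, J, reverse_inj] at h2
    subst h2
    have h1 := congrFun (congrArg M.l hc) (.inr [1])
    simp only [mul_l, J, sg_vtx _ hu, sg_vtx _ hu', sg1 hv'] at h1
    by_cases o' : v' = [] ∨ v' ++ u' <:+: W m <;> by_cases o : v' = [] ∨ v' ++ u <:+: W m
    · rw [sg_ok o', sg_ok o] at h1
      have := eq_hi hu hu' (by rw [fl_hi, fl_hi]; decide) h1
      subst this
      rcases Bool.eq_or_eq_not b' b with rfl | rfl
      · exact Or.inl rfl
      · exact Or.inr (Or.inl ⟨o, rfl⟩)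
    · rw [sg_ok o', sg_no o] at h1
      have := eq_hi hu hu' (by rw [fl_hi, fl_hi]; decide) h1
      subst this
      exact absurd o' o
    · rw [sg_no o', sg_ok o] at h1
      have := eq_hi hu' hu (by rw [fl_hi, fl_hi]; decide) h1.symm
      subst this
      exact absurd o o'
    · rw [sg_no o', sg_no o] at h1
      have hv0 : v' ≠ [] := fun h => o (Or.inl h)
      have hu2 : u = u' := by
        rcases gb_cases (pi (W m) (v' ++ u')) with g | g
        · have n1 := not_closed hv0 hv' g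
          rcases gb_cases (pi (W m) (v' ++ u)) with g' | g'
          · have n2 := not_closed hv0 hv' g'
            obtain ⟨-, h3⟩ := vtx_inj h1
            rwa [rp, rp, if_neg n1, if_neg n2] at h3
          · exact (eq_hi hu' hu (by rw [g', fl_hi]; decide) h1.symm).symm
        · exact eq_hi hu hu' (by rw [g, fl_hi]; decide) h1
      subst hu2
      have := fl_inj _ _ _ (vtx_inj h1).1
      subst this
      exact Or.inl rfl
  · obtain ⟨h1, h2⟩ := (cK _ _ _).1 hc
    simp only [J] at h1 h2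
    exact Or.inr (Or.inr ⟨fl b (sg m v i), by rw [h1, h2], by rw [h1]⟩)

noncomputable def U (m n : ℕ) : M := J m false ((W m).take (n + 2)) []

lemma all_U (hm : m % 2 = 0) (X : Set M) (hne : X.Nonempty) (hT : ∀ a ∈ X, Ty m a)
    (h2 : ∀ a ∈ X, ∃ b ∈ X, ∃ c ∈ X, b ≠ c ∧ b ≠ a ∧ c ≠ a ∧ a * b = b * a ∧ a * c = c * a) :
    ∀ n, 1 ≤ n → n ≤ m → U m n ∈ X := by
  have noT : ∀ w, w ≠ [] → w <:+: W m → tw m w ∉ X := by
    intro w hw h hX
    obtain ⟨b, hb, c, hc, h1, h2, h3, h4, h5⟩ := h2 _ hX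
    exact h1 (((nbT hw h (hT b hb) h4).resolve_left h2).trans
      ((nbT hw h (hT c hc) h5).resolve_left h3).symm)
  have noJ : ∀ u v, u <:+: W m → v <:+: W m → J m true u v ∉ X := by
    intro u v hu hv hX
    obtain ⟨b, hb, c, hc, h1, h2, h3, h4, h5⟩ := h2 _ hX
    by_cases o : v = [] ∨ v ++ u <:+: W m
    · have : ∀ x ∈ X, x ≠ J m true u v → J m true u v * x = x * J m true u v →
          x = J m false u v := by
        intro x hx hne hco
        rcases (nbJ hu hv (hT x hx) hco).resolve_left hne with ⟨-, h⟩ | ⟨e, -, he⟩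
        · exact h
        · rw [sg_vtx _ hu, sg_ok o] at he
          exact absurd he (by revert e; decide)
      exact h1 ((this b hb h2 h4).trans (this c hc h3 h5).symm)
    · have : ∀ x ∈ X, x ≠ J m true u v → J m true u v * x = x * J m true u v →
          x = K (vtx m u (fl true (gb (pi (W m) (v ++ u))))) v.reverse := by
        intro x hx hne hco
        rcases (nbJ hu hv (hT x hx) hco).resolve_left hne with ⟨h, -⟩ | ⟨e, h, he⟩
        · exact absurd h o
        · rw [sg_vtx _ hu, sg_no o] at he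
          rw [h, he]
      exact h1 ((this b hb h2 h4).trans (this c hc h3 h5).symm)
  have nbK : ∀ i p, ∀ b ∈ X, b ≠ K i p → K i p * b = b * K i p → ∃ u v, u <:+: W m ∧ v <:+: W m ∧
      b = J m false u v ∧ v = p.reverse ∧ ∃ e, vtx m u e = i := by
    intro i p b hb h1 h2
    obtain ⟨h3, h4⟩ := (cK _ _ _).1 h2.symm
    rcases hT b hb with ⟨w', h0', h', rfl⟩ | ⟨b', u', v', hu', hv', rfl⟩ | ⟨i', p', rfl⟩
    · exact absurd hb (noT _ h0' h')
    · cases b'
      · exact ⟨u', v', hu', hv', rfl, by rw [← h4]; exact (reverse_reverse _).symm, _, h3⟩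
      · exact absurd hb (noJ _ _ hu' hv')
    · exact absurd (by rw [← h3, ← h4]; rfl) h1
  have Knb : ∀ x e p, K (vtx m x e) p ∈ X → ∃ u u', u ≠ u' ∧ u <:+: W m ∧ u' <:+: W m ∧
      J m false u p.reverse ∈ X ∧ J m false u' p.reverse ∈ X ∧ rp m u e = rp m x e ∧
      rp m u' e = rp m x e := by
    intro x e p hX
    obtain ⟨b, hb, c, hc, h1, h2, h3, h4, h5⟩ := h2 _ hX
    obtain ⟨u, v, hu, -, rfl, rfl, e1, k1⟩ := nbK _ _ b hb h2 h4
    obtain ⟨u', v, hu', -, rfl, rfl, e2, k2⟩ := nbK _ _ c hc h3 h5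
    simp only [vtx, Sum.inl.injEq, Prod.mk.injEq] at k1 k2
    obtain ⟨k1, rfl⟩ := k1
    obtain ⟨k2, rfl⟩ := k2
    exact ⟨u, u', fun h => h1 (by rw [h]), hu, hu', hb, hc, k1, k2⟩
  have Jnb : ∀ u v, u <:+: W m → v <:+: W m → J m false u v ∈ X → ∀ e : Fin 4, e.val < 2 →
      K (vtx m u e) v.reverse ∈ X ∧ sg m v (vtx m u e) = e := by
    intro u v hu hv hX e he
    obtain ⟨b, hb, c, hc, h1, h2, h3, h4, h5⟩ := h2 _ hX
    have nh : ∀ f : Fin 4, 2 ≤ f.val → K (vtx m u f) v.reverse ∉ X := fun f hf h => by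
      obtain ⟨a, a', q1, q2, q3, -, -, q4, q5⟩ := Knb _ _ _ h
      exact q1 (by rw [← rp_hi q2 hf, q4, ← q5, rp_hi q3 hf])
    have ne : ∀ x ∈ X, x ≠ J m false u v → J m false u v * x = x * J m false u v →
        ∃ f : Fin 4, f.val < 2 ∧ x = K (vtx m u f) v.reverse ∧ sg m v (vtx m u f) = f := by
      intro x hx hne hco
      rcases (nbJ hu hv (hT x hx) hco).resolve_left hne with ⟨-, h⟩ | ⟨f, h, hf⟩
      · exact absurd hx (h ▸ noJ _ _ hu hv)
      · rw [fl_false] at hf
        refine ⟨f, ?_, h, hf⟩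
        by_contra h'
        exact nh f (by omega) (h ▸ hx)
    obtain ⟨e1, l1, rfl, k1⟩ := ne b hb h2 h4
    obtain ⟨e2, l2, rfl, k2⟩ := ne c hc h3 h5
    have : e = e1 ∨ e = e2 := by
      have : e1 ≠ e2 := fun h => h1 (by rw [h])
      omega
    rcases this with rfl | rfl
    exacts [⟨hb, k1⟩, ⟨hc, k2⟩]
  have step : ∀ u v, u <:+: W m → v <:+: W m → J m false u v ∈ X → 3 ≤ u.length ∧
      u.length ≤ m + 2 ∧ U m (if u.length - 2 = m then 1 else u.length - 2 + 1) ∈ X := by
    intro u v hu hv hX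
    obtain ⟨e, he, he'⟩ : ∃ e : Fin 4, e.val < 2 ∧ e.val = (u.length - 2) % 2 :=
      ⟨⟨(u.length - 2) % 2, by omega⟩, by simp; omega, rfl⟩
    obtain ⟨k1, k2⟩ := Jnb u v hu hv hX e he
    obtain ⟨a, a', q1, q2, q3, q4, q5, q6, q7⟩ := Knb _ _ _ k1
    rcases rp_cases hu e with ⟨r1, r2⟩ | ⟨r1, r2, r3, r4, r5⟩
    · exfalso
      rcases rp_cases q2 e with ⟨s1, s2⟩ | ⟨s1, s2, -⟩
      · rcases rp_cases q3 e with ⟨t1, t2⟩ | ⟨t1, t2, -⟩
        · exact q1 (by rw [← s1, ← t1, q6, q7])
        · exact r2 (by rw [← r1, ← q7]; exact t2)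
      · exact r2 (by rw [← r1, ← q6]; exact s2)
    have hv0 : v = [] := by
      by_contra h
      have h' : ¬ (v = [] ∨ v ++ u <:+: W m) := fun ho => ho.elim h (hz r1 h)
      rw [sg_vtx _ hu, sg_no h'] at k2
      rcases gb_cases (pi (W m) (v ++ u)) with g | g
      · exact not_closed h hv g r1
      · rw [g] at k2
        rw [← k2] at he
        exact absurd he (by decide)
    subst hv0
    have hl : 3 ≤ u.length := M0_len r1
    have pf : ∀ a, a <:+: W m → rp m a e = rp m u e → a = (W m).take a.length ∧ 3 ≤ a.length ∧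
        a.length ≤ m + 2 ∧ cc m e (a.length - 2) = cc m e (u.length - 2) := by
      intro a ha h
      rcases rp_cases ha e with ⟨s1, s2⟩ | ⟨s1, s2, s3, s4, s5⟩
      · exact absurd (by rw [← s1, h]; exact r2) s2
      · have h1 : 3 ≤ a.length := M0_len s1
        refine ⟨s3, h1, s5, ?_⟩
        have := congrArg length h
        rw [s4, r4, length_take, length_take, lenW] at this
        have h2 : ¬ 2 ≤ e.val := by omega
        revert this
        unfold cc
        simp only [h2, if_false]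
        split_ifs <;> omega
    obtain ⟨a1, a2, a3, a4⟩ := pf a q2 q6
    obtain ⟨b1, b2, b3, b4⟩ := pf a' q3 q7
    have hne : a.length ≠ a'.length := fun h => q1 (by rw [a1, b1, h])
    refine ⟨hl, r5, ?_⟩
    have : a.length - 2 = (if u.length - 2 = m then 1 else u.length - 2 + 1) ∨
        a'.length - 2 = (if u.length - 2 = m then 1 else u.length - 2 + 1) := by
      have h2 : ¬ 2 ≤ e.val := by omega
      revert a4 b4
      unfold cc
      simp only [Fin.ext_iff, he']
      split_ifs <;> simp at * <;> omega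
    rcases this with h | h
    · rw [U, ← h, Nat.sub_add_cancel (by omega), ← a1]; exact q4
    · rw [U, ← h, Nat.sub_add_cancel (by omega), ← b1]; exact q5
  have st : ∀ n, n ≤ m → U m n ∈ X → U m (if n = m then 1 else n + 1) ∈ X := fun n hn h => by
    have := (step _ _ (take_prefix _ _).isInfix nil_infix h).2.2
    rwa [length_take, lenW, min_eq_left (by omega), Nat.add_sub_cancel] at this
  have up : ∀ n k, n + k ≤ m → U m n ∈ X → U m (n + k) ∈ X := by
    intro n k
    induction k with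
    | zero => exact fun _ h => h
    | succ k ih =>
      intro h1 h2
      have := st _ (by omega) (ih (by omega) h2)
      rwa [if_neg (by omega)] at this
  obtain ⟨u, v, hu, hv, hX⟩ : ∃ u v, u <:+: W m ∧ v <:+: W m ∧ J m false u v ∈ X := by
    obtain ⟨a, ha⟩ := hne
    rcases hT a ha with ⟨w', h0', h', rfl⟩ | ⟨b', u', v', hu', hv', rfl⟩ | ⟨i', p', rfl⟩
    · exact absurd ha (noT _ h0' h')
    · cases b'
      · exact ⟨_, _, hu', hv', ha⟩
      · exact absurd ha (noJ _ _ hu' hv')
    · obtain ⟨b, hb, -, -, -, h2, -, h4, -⟩ := h2 _ ha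
      obtain ⟨u, v, hu, hv, rfl, -⟩ := nbK _ _ b hb h2 h4
      exact ⟨_, _, hu, hv, hb⟩
  obtain ⟨s1, s2, s3⟩ := step u v hu hv hX
  have h1 : U m 1 ∈ X := by
    split_ifs at s3 with h
    · exact s3
    · have := st m le_rfl (by
        have := up _ (m - (u.length - 2 + 1)) (by omega) s3
        rwa [show u.length - 2 + 1 + (m - (u.length - 2 + 1)) = m by omega] at this)
      rwa [if_pos rfl] at this
  intro n n1 n2
  have := up 1 (n - 1) (by omega) h1
  rwa [show 1 + (n - 1) = n by omega] at this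

lemma U_inj {n n' : ℕ} (h : n ≤ m) (h' : n' ≤ m) (e : U m n = U m n') : n = n' := by
  have h1 := congrFun (congrArg M.l e) (.inr [1])
  simp only [U, J, sg1 nil_infix] at h1
  have := congrArg length (eq_hi (take_prefix _ _).isInfix (take_prefix _ _).isInfix
    (by rw [fl_hi]; decide) h1)
  rw [length_take, length_take, lenW] at this
  omega

theorem girth_ge (hm : m % 2 = 0) {a : _} (c : (commGraph (S m)).Walk a a) (hc : c.IsCycle) :
    m ≤ c.length + 1 := by
  classical
  have := all_U hm ((fun x => x.1.1) '' {x | x ∈ c.support}) ⟨_, a, c.start_mem_support, rfl⟩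
    (by rintro _ ⟨x, -, rfl⟩; exact (ty_S x.1.2).1) (by
      rintro _ ⟨x, hx, rfl⟩
      obtain ⟨y, z, hyz, h⟩ := Set.ncard_eq_two.1 (hc.ncard_neighborSet_toSubgraph_eq_two hx)
      have hy : c.toSubgraph.Adj x y := (h ▸ (by simp) : y ∈ c.toSubgraph.neighborSet x)
      have hz : c.toSubgraph.Adj x z := (h ▸ (by simp) : z ∈ c.toSubgraph.neighborSet x)
      have inj : ∀ {p q : {x : S m // x ∉ Set.center (S m)}}, p ≠ q → p.1.1 ≠ q.1.1 :=
        fun h e => h (Subtype.ext (Subtype.ext e))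
      exact ⟨_, ⟨y, by simpa using hy.snd_mem, rfl⟩, _, ⟨z, by simpa using hz.snd_mem, rfl⟩, inj hyz,
        inj hy.adj_sub.ne', inj hz.adj_sub.ne', congrArg Subtype.val hy.adj_sub.2,
        congrArg Subtype.val hz.adj_sub.2⟩)
  have h2 := Finset.card_le_card_of_injOn (s := Finset.Icc 1 m)
    (t := (c.support.map fun x => x.1.1).toFinset) (U m) (fun n hn => by
      obtain ⟨x, hx, e⟩ := this n (Finset.mem_Icc.1 hn).1 (Finset.mem_Icc.1 hn).2
      simp only [coe_toFinset, mem_map, Set.mem_ofPred_eq]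
      exact ⟨x, hx, e⟩) fun n hn n' hn' e =>
      U_inj (Finset.mem_Icc.1 hn).2 (Finset.mem_Icc.1 hn').2 e
  simpa using h2.trans (List.toFinset_card_le _)

/-- The two colours of the cycle among the four colours. -/
def em (e : Fin 2) : Fin 4 := ⟨e.val, by omega⟩

lemma em_ne : ∀ e : Fin 2, fl false 2 ≠ em e := by decide

lemma em_inj : ∀ e : Fin 2, em e = em 0 → e = 0 := by decide

theorem not_acyclic (hm : m % 2 = 0) (h2 : 2 ≤ m) : ¬ (commGraph (S m)).IsAcyclic := by
  have hM : ∀ n, M0 <+: (W m).take (n + 1 + 2) := fun n => take_W (by omega) (by omega)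
  have hne : ∀ n, (W m).take (n + 1 + 2) ≠ [] := fun n h => by
    have := M0_len (hM n)
    rw [h] at this
    simp at this
  have hf : ∀ n, (W m).take (n + 1 + 2) <:+: W m := fun n => (take_prefix _ _).isInfix
  have nc : ∀ s : S m, s ∈ Set.center (S m) → ∀ e : Fin 4, e.val < 2 →
      s.1.l (vtx m [] e) = vtx m [] e := fun s hs e he => by
    have hK : K (vtx m [] e) [] ∈ S m := by
      have : e = 0 ∨ e = 1 := by omega
      rcases this with rfl | rfl
      exacts [K0_mem (by omega), K1_mem (by omega)]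
    exact ((cK _ _ []).1 (congrArg Subtype.val (Semigroup.mem_center_iff.1 hs
      ⟨K (vtx m [] e) [], hK⟩)).symm).1
  have hrp : ∀ n e, rp m ((W m).take (n + 1 + 2)) e =
      (W m).take (cc m e (min (n + 1 + 2) (m + 2) - 2) + 2) := by
    intro n e
    rw [rp, if_pos (hM n), length_take, lenW]
  have rnil : ∀ e, rp m [] e = [] := fun e => by simp [rp, M0]
  let a : ℕ → {x : S m // x ∉ Set.center (S m)} := fun n =>
    ⟨⟨U m (n + 1), J_mem (hne n) (hf n)⟩, fun h => by
      have := nc _ h 0 (by decide)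
      simp only [U, J, fl_false] at this
      have := (vtx_inj this).2
      rw [sg_nil_vtx, hrp, rnil] at this
      have h3 := take_W (m := m + 2) (k := cc m 0 (min (n + 1 + 2) (m + 2) - 2) + 2) (by omega)
        (by have := cc_pos (m := m) 0 (n := min (n + 1 + 2) (m + 2) - 2) (by omega); omega)
      rw [this] at h3
      simp [M0] at h3⟩
  let b : ℕ → Fin 2 → {x : S m // x ∉ Set.center (S m)} := fun n e =>
    ⟨⟨K (vtx m ((W m).take (n + 1 + 2)) (em e)) [], K_mem (by omega) (hne n) (hf n)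
      (e := em e) e.2⟩, fun h => by
      have := (nc _ h 0 (by decide)).symm.trans (nc _ h 1 (by decide))
      exact absurd (vtx_inj this).1 (by decide)⟩
  have ab : ∀ n n' e, a n ≠ b n' e := fun n n' e h => by
    have := congrFun (congrArg (fun x => x.1.1.l) h) (.inr [1])
    simp only [a, b, U, J, K, sg1 nil_infix] at this
    exact em_ne _ (vtx_inj this).1
  have adj : ∀ n e, (commGraph (S m)).Adj (a n) (b n e) := fun n e =>
    ⟨ab n n e, Subtype.ext ((cK _ _ _).2 ⟨by simp [a, U, J, vtx, sg, fl_false], rfl⟩)⟩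
  have beq : ∀ n n' (e : Fin 2), cc m (em e) (min (n + 1 + 2) (m + 2) - 2) =
      cc m (em e) (min (n' + 1 + 2) (m + 2) - 2) →
      b n e = b n' e := fun n n' e h => Subtype.ext (Subtype.ext (by simp only [b, vtx, hrp, h]))
  intro hA
  have hB := SimpleGraph.isAcyclic_iff_forall_adj_isBridge.1 hA (adj 0 0)
  rw [SimpleGraph.isBridge_iff] at hB
  apply hB
  have ed : ∀ n e, n < m → ¬ (n = 0 ∧ e = 0) →
      ((commGraph (S m)).deleteEdges {s(a 0, b 0 0)}).Reachable (a n) (b n e) := by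
    intro n e hn h
    refine SimpleGraph.Adj.reachable (SimpleGraph.deleteEdges_adj.2 ⟨adj n e, fun h' => ?_⟩)
    rcases Sym2.eq_iff.1 h' with ⟨h1, h3⟩ | ⟨h1, -⟩
    · have := U_inj (by omega) (by omega) (congrArg (fun x => x.1.1) h1)
      have h4 := congrFun (congrArg (fun x => x.1.1.l) h3) (.inr [])
      simp only [b, K] at h4
      exact h ⟨by omega, em_inj _ (vtx_inj h4).1⟩
    · exact ab _ _ _ h1
  have re : ∀ n, n < m → ((commGraph (S m)).deleteEdges {s(a 0, b 0 0)}).Reachable (a 0) (a n) := by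
    intro n
    induction n with
    | zero => exact fun _ => SimpleGraph.Reachable.refl _
    | succ n ih =>
      intro hn
      obtain ⟨e, he⟩ : ∃ e : Fin 2, e.val = (n + 1) % 2 := ⟨⟨(n + 1) % 2, by omega⟩, rfl⟩
      refine ((ih (by omega)).trans (ed n e (by omega) (by rintro ⟨rfl, rfl⟩; simp at he))).trans ?_
      rw [beq n (n + 1) e (by
        unfold cc
        simp only [Fin.ext_iff, em, he]
        split_ifs <;> simp at * <;> omega)]
      exact (ed (n + 1) e hn (by simp)).symm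
  have := (re (m - 1) (by omega)).trans (ed (m - 1) 0 (by omega) (by omega))
  rwa [beq (m - 1) 0 0 (by
    unfold cc
    simp only [Fin.ext_iff, em]
    split_ifs <;> simp at * <;> omega)] at this

end Pool.Agent.H53Rank
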